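import Pool.Agent.Run7.h308.WS.RecW

/-!
Piece W4: the infinite iteration for weak solutions.
-/

set_option autoImplicit false

open MeasureTheory Set Filter Topology
open scoped ENNReal

namespace Pool.Agent.Run7.h308.WS

open H459R3.NS Pool.Agent.Run7.h782 Pool.Agent.Run7.h782.GD Pool.Agent.Run7.h782.GS
open Pool.Agent.Run7.h782.WS Pool.Agent.Run7.h969.GS Pool.Agent.Run7

/-- The measure `dt / t` on `(0, 1]`. -/
noncomputable def mu1 : Measure ℝ :=
  (volume.restrict (Ioc (0 : ℝ) 1)).withDensity fun s => (ENNReal.ofReal s)⁻¹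

theorem mu1_ae {p : ℝ → Prop} (h : ∀ s, s ∈ Ioc (0 : ℝ) 1 → p s) : ∀ᵐ s ∂mu1, p s := by
  refine (withDensity_absolutelyContinuous _ _) ?_
  filter_upwards [self_mem_ae_restrict measurableSet_Ioc] with s hs
  exact h s hs

theorem lintegral_mu1 {g : ℝ → ℝ≥0∞} (hg : AEMeasurable g (volume.restrict (Ioc (0 : ℝ) 1))) :
    ∫⁻ s, g s ∂mu1 = ∫⁻ s in Ioc (0 : ℝ) 1, g s / ENNReal.ofReal s := by
  have hm : AEMeasurable (fun s : ℝ => (ENNReal.ofReal s)⁻¹) (volume.restrict (Ioc (0 : ℝ) 1)) :=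
    ENNReal.measurable_ofReal.inv.aemeasurable
  rw [mu1, lintegral_withDensity_eq_lintegral_mul₀ hm hg]
  refine lintegral_congr fun s => ?_
  rw [Pi.mul_apply, mul_comm, div_eq_mul_inv]

theorem aem_mu1 {g : ℝ → ℝ≥0∞} (hg : AEMeasurable g (volume.restrict (Ioc (0 : ℝ) 1))) :
    AEMeasurable g mu1 := hg.mono_ac (withDensity_absolutelyContinuous _ _)

/-- The contribution of a step. -/
theorem step_mu1 {f : ℝ → ℝ≥0∞} (hf : AEMeasurable f (volume.restrict (Ioc (0 : ℝ) 1)))
    {ε H q : ℝ} (hε : 0 < ε) (hq : 2 < q)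
    (hpt : ∀ t, 0 < t → f t ≤ ENNReal.ofReal (ε / Real.sqrt t))
    (hint : ∫⁻ t in Ioc (0 : ℝ) 1, f t ^ (2 : ℝ) ≤ ENNReal.ofReal H) :
    Nq mu1 q (fun t => ENNReal.ofReal (Real.sqrt t) * f t)
      ≤ ENNReal.ofReal (ε ^ (q - 2) * H) ^ (1 / q) := by
  have hsm : Measurable fun t : ℝ => ENNReal.ofReal (Real.sqrt t) :=
    ENNReal.measurable_ofReal.comp Real.continuous_sqrt.measurable
  have hg : AEMeasurable (fun t => (ENNReal.ofReal (Real.sqrt t) * f t) ^ q)
      (volume.restrict (Ioc (0 : ℝ) 1)) := (hsm.aemeasurable.mul hf).pow_const q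
  rw [Nq]
  refine ENNReal.rpow_le_rpow ?_ (by positivity)
  rw [lintegral_mu1 hg]
  have hp : ∀ t ∈ Ioc (0 : ℝ) 1, (ENNReal.ofReal (Real.sqrt t) * f t) ^ q / ENNReal.ofReal t
      ≤ ENNReal.ofReal (ε ^ (q - 2)) * f t ^ (2 : ℝ) := by
    intro t ht
    have ht0 : 0 < t := ht.1
    have hst : 0 < Real.sqrt t := Real.sqrt_pos.2 ht0
    set y := ENNReal.ofReal (Real.sqrt t) * f t with hy
    have h1 : y ≤ ENNReal.ofReal ε := by
      calc y ≤ ENNReal.ofReal (Real.sqrt t) * ENNReal.ofReal (ε / Real.sqrt t) :=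
            mul_le_mul' le_rfl (hpt t ht0)
        _ = ENNReal.ofReal ε := by
            rw [← ENNReal.ofReal_mul hst.le, mul_div_cancel₀ _ hst.ne']
    have h2 : y ^ q = y ^ (q - 2) * y ^ (2 : ℝ) := by
      rw [← ENNReal.rpow_add_of_nonneg _ _ (by linarith) (by norm_num), sub_add_cancel]
    have h3 : y ^ (2 : ℝ) = ENNReal.ofReal t * f t ^ (2 : ℝ) := by
      rw [hy, ENNReal.mul_rpow_of_nonneg _ _ (by norm_num),
        ENNReal.ofReal_rpow_of_nonneg hst.le (by norm_num), Real.rpow_two, Real.sq_sqrt ht0.le]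
    rw [h2, h3, ← ENNReal.ofReal_rpow_of_nonneg hε.le (by linarith)]
    have h4 : ENNReal.ofReal t ≠ 0 := by
      rw [ne_eq, ENNReal.ofReal_eq_zero, not_le]
      exact ht0
    calc y ^ (q - 2) * (ENNReal.ofReal t * f t ^ (2 : ℝ)) / ENNReal.ofReal t
        = y ^ (q - 2) * f t ^ (2 : ℝ) * (ENNReal.ofReal t / ENNReal.ofReal t) := by
          rw [div_eq_mul_inv, div_eq_mul_inv]
          ring
      _ = y ^ (q - 2) * f t ^ (2 : ℝ) := by
          rw [ENNReal.div_self h4 ENNReal.ofReal_ne_top, mul_one]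
      _ ≤ ENNReal.ofReal ε ^ (q - 2) * f t ^ (2 : ℝ) :=
          mul_le_mul' (ENNReal.rpow_le_rpow h1 (by linarith)) le_rfl
  calc _ ≤ ∫⁻ t in Ioc (0 : ℝ) 1, ENNReal.ofReal (ε ^ (q - 2)) * f t ^ (2 : ℝ) :=
        setLIntegral_mono' measurableSet_Ioc hp
    _ = ENNReal.ofReal (ε ^ (q - 2)) * ∫⁻ t in Ioc (0 : ℝ) 1, f t ^ (2 : ℝ) :=
        lintegral_const_mul' _ _ ENNReal.ofReal_ne_top
    _ ≤ ENNReal.ofReal (ε ^ (q - 2)) * ENNReal.ofReal H := mul_le_mul' le_rfl hint
    _ = _ := (ENNReal.ofReal_mul (Real.rpow_nonneg hε.le _)).symm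

theorem mu1_const {q M : ℝ} (hq : 2 < q) (hM : 0 ≤ M) :
    Nq mu1 q (fun t => ENNReal.ofReal (Real.sqrt t) * ENNReal.ofReal M) < ⊤ := by
  have hq0 : 0 < q := by linarith
  have hsm : Measurable fun t : ℝ => ENNReal.ofReal (Real.sqrt t) :=
    ENNReal.measurable_ofReal.comp Real.continuous_sqrt.measurable
  have hmc : AEMeasurable (fun t : ℝ => (ENNReal.ofReal (Real.sqrt t) * ENNReal.ofReal M) ^ q)
      (volume.restrict (Ioc (0 : ℝ) 1)) := ((hsm.mul measurable_const).pow_const q).aemeasurable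
  rw [Nq]
  refine ENNReal.rpow_lt_top_of_nonneg (by positivity) (ne_of_lt ?_)
  rw [lintegral_mu1 hmc]
  have hp : ∀ t ∈ Ioc (0 : ℝ) 1, (ENNReal.ofReal (Real.sqrt t) * ENNReal.ofReal M) ^ q
      / ENNReal.ofReal t ≤ ENNReal.ofReal (M ^ q) := by
    intro t ht
    have ht0 : 0 < t := ht.1
    have hst : 0 < Real.sqrt t := Real.sqrt_pos.2 ht0
    have h1 : (Real.sqrt t * M) ^ q / t ≤ M ^ q := by
      rw [div_le_iff₀ ht0, Real.mul_rpow hst.le hM, mul_comm]
      refine mul_le_mul_of_nonneg_left ?_ (Real.rpow_nonneg hM _)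
      have h2 : Real.sqrt t ^ q ≤ Real.sqrt t ^ (2 : ℝ) :=
        Real.rpow_le_rpow_of_exponent_ge hst (Real.sqrt_le_one.2 ht.2) hq.le
      rwa [Real.rpow_two, Real.sq_sqrt ht0.le] at h2
    rw [← ENNReal.ofReal_mul hst.le, ENNReal.ofReal_rpow_of_nonneg (by positivity) hq0.le,
      ← ENNReal.ofReal_div_of_pos ht0]
    exact ENNReal.ofReal_le_ofReal h1
  refine lt_of_le_of_lt (setLIntegral_mono' measurableSet_Ioc hp) ?_
  rw [lintegral_const, Measure.restrict_apply_univ, Real.volume_Ioc]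
  exact ENNReal.mul_lt_top ENNReal.ofReal_lt_top ENNReal.ofReal_lt_top

theorem Sq2_meas {a U : ℝ → Cf} (ha : Cnt a) (hU : Cnt U) (k : K3) :
    AEMeasurable (fun t => ENNReal.ofReal ‖a t k - U t k‖) (volume.restrict (Ioc (0 : ℝ) 1)) := by
  refine ENNReal.measurable_ofReal.comp_aemeasurable ?_
  refine ContinuousOn.aemeasurable ?_ measurableSet_Ioc
  exact ((ha k).sub (hU k)).norm.mono fun t ht => (show (0 : ℝ) < t from ht.1).le

theorem l1_div {c : Cf} (h : L1 c) : Summable fun k => ‖c k‖ / len k := by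
  refine Summable.of_nonneg_of_le (fun k => div_nonneg (norm_nonneg _) (len_nonneg k))
    (fun k => ?_) h
  by_cases hk : k = 0
  · subst hk
    rw [len_zero, div_zero]
    exact norm_nonneg _
  · exact div_le_self (norm_nonneg _) (one_le_len hk)

theorem l1_div_le {c : Cf} (h : L1 c) : ∑' k, ‖c k‖ / len k ≤ ∑' k, ‖c k‖ := by
  refine (l1_div h).tsum_le_tsum (fun k => ?_) h
  by_cases hk : k = 0
  · subst hk
    rw [len_zero, div_zero]
    exact norm_nonneg _
  · exact div_le_self (norm_nonneg _) (one_le_len hk)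

theorem rho_sum {ρ : ℝ≥0∞} (hρ : ρ < 1) {K : ℝ≥0∞} (hK : K ≠ ⊤) :
    ∑' n : ℕ, K * ρ ^ n ≠ ⊤ := by
  rw [ENNReal.tsum_mul_left, ENNReal.tsum_geometric]
  refine ENNReal.mul_ne_top hK ?_
  rw [ne_eq, ENNReal.inv_eq_top, tsub_eq_zero_iff_le, not_le]
  exact hρ

/-- **Piece W4.** -/
theorem iterW (hStep : StmStepW) (hLim : StmLim) (hAl : StmAl) : StmIterW := by
  obtain ⟨C₀, hC₀, H⟩ := seqsW hStep
  obtain ⟨Ca, hCa, al1, al2, al3⟩ := hAl
  intro ν hν U hU c hc0 hh hd hs δ hδ
  obtain ⟨z, A, ε, Hn, hA0, hzl, hzs, hzε, hz0, hst, hε0, hε1, hε2, hεa, hHn, hM⟩ :=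
    H ν hν U hU c hc0 hh hd hs δ hδ
  -- the limit
  obtain ⟨b, hb, hlim⟩ := hLim ν hν (fun j => A (j + 1)) (fun j => ε (j + 1))
    (fun j => (hst j).csol) (fun j => hε0 _) (fun i j hij => hεa (by omega))
    (by
      refine Summable.of_nonneg_of_le (fun j => (hε0 _).le) (fun j => hε1 (j + 1)) ?_
      exact (summable_nat_add_iff 1).2 (summable_geometric_of_lt_one (by norm_num) (by norm_num)))
    (fun j t ht => (hst (j + 1)).close t ht)
  have htg : ∀ n, Tg ν (A n) := by
    intro n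
    cases n with
    | zero => rw [hA0]; exact hU
    | succ n => exact (hst n).tg
  have hcn : ∀ n, Cnt (A n) := fun n => h969.GS.LSol.cnt (htg n).toLSol
  have hbc : ∀ k, ContinuousOn (fun t => b t k) (Ioi 0) := by
    intro k t ht
    have ht' : 0 < t := ht
    have h1 := ((hb (t / 2) (by positivity)).der (t / 2) (by positivity) k).continuousWithinAt
    have h2 : ContinuousWithinAt (fun s => b s k) (Ici (t / 2)) t := by
      have h3 : ContinuousWithinAt (fun s => (fun s => b (s + t / 2) k) (s - t / 2))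
          (Ici (t / 2)) t := by
        refine ContinuousWithinAt.comp (t := Ici 0) (g := fun s => b (s + t / 2) k) ?_
          ((continuous_id.sub continuous_const).continuousWithinAt) fun s hs => ?_
        · rw [show t - t / 2 = t / 2 by ring]
          exact h1
        · have : t / 2 ≤ s := hs
          simp only [mem_Ici]
          linarith
      refine h3.congr (fun s _ => ?_) ?_ <;> simp
    exact (h2.continuousAt (Ici_mem_nhds (by linarith))).continuousWithinAt
  have hbm : ∀ k, AEMeasurable (fun t => ENNReal.ofReal ‖b t k‖)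
      (volume.restrict (Ioc (0 : ℝ) 1)) := fun k =>
    ENNReal.measurable_ofReal.comp_aemeasurable
      (ContinuousOn.aemeasurable ((hbc k).norm.mono fun t ht => ht.1) measurableSet_Ioc)
  have hSm : ∀ n, AEMeasurable (fun t => Sd (A (n + 1) t) (A n t))
      (volume.restrict (Ioc (0 : ℝ) 1)) := fun n => Sd_meas (hcn _) (hcn _)
  have hsm : Measurable fun t : ℝ => ENNReal.ofReal (Real.sqrt t) :=
    ENNReal.measurable_ofReal.comp Real.continuous_sqrt.measurable
  -- bounds of the members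
  have hbd : ∀ n, ∃ M : ℝ, 0 ≤ M ∧ ∀ t, 0 ≤ t → ∀ B : Finset K3, ∑ k ∈ B, ‖A n t k‖ ≤ M := by
    intro n
    obtain ⟨M, hM'⟩ := (htg n).bd
    exact ⟨M, by simpa using hM' 0 le_rfl ∅, hM'⟩
  choose M hM0 hMn using hbd
  have hsumb : ∀ J t, 0 < t → ∑' k, ENNReal.ofReal ‖b t k‖
      ≤ ENNReal.ofReal (M J) + ∑' i, Sd (A (J + i + 1) t) (A (J + i) t) := fun J t ht =>
    sum_le (hlim t ht) (hMn J t ht.le)
  refine ⟨b, hb, ?_, ?_, ?_, ?_, ?_⟩
  · -- the Besov norms
    intro q hq
    have hq1 : 1 ≤ q := by linarith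
    have hq0 : 0 < q := by linarith
    set ρ : ℝ≥0∞ := ENNReal.ofReal (1 / 2) ^ (1 / q) with hρ
    have hρ1 : ρ < 1 := rho_lt hq0
    obtain ⟨n₀, hn₀⟩ : ∃ n₀ : ℕ, ∀ n, n₀ ≤ n → 1 / ((n : ℝ) + 1) ≤ q - 2 := by
      obtain ⟨n₀, hn₀⟩ := exists_nat_one_div_lt (show 0 < q - 2 by linarith)
      refine ⟨n₀, fun n hn => le_trans ?_ hn₀.le⟩
      exact one_div_le_one_div_of_le (by positivity) (by
        have : (n₀ : ℝ) ≤ n := by exact_mod_cast hn
        linarith)
    have hE : ∀ n, n₀ ≤ n → ENNReal.ofReal (ε n ^ (q - 2) * Hn n) ^ (1 / q) ≤ ρ ^ n := by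
      intro n hn
      rw [hρ, ← ofReal_half_pow_rpow]
      exact ENNReal.rpow_le_rpow (ENNReal.ofReal_le_ofReal
        (pow_Hn hε0 hε1 hHn hM (hn₀ n hn))) (by positivity)
    have hg : ∀ n, ENNReal.ofReal ((1 / 2) ^ n) ≤ ρ ^ n := fun n => ofReal_half_pow_le hq1 n
    have hcz : ∀ n, bN q (fun k => ENNReal.ofReal ‖c k - z n k‖) ≤ ρ ^ n := fun n =>
      (bN_le hq (by rw [hc0, hz0]) (hzs n) (hzε n)).trans (hg n)
    have hw : ∀ n, n₀ ≤ n → bN q (fun k => ENNReal.ofReal ‖A (n + 1) 0 k - z n k‖)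
        ≤ 2 * ρ ^ n := fun n hn => by
      rw [two_mul]
      exact ((hst n).one q hq).trans (add_le_add (hE n hn) (hg n))
    have hAc : ∀ n, n₀ ≤ n → bN q (fun k => ENNReal.ofReal ‖A (n + 1) 0 k - c k‖)
        ≤ 3 * ρ ^ n := by
      intro n hn
      refine (bN_tri hq1 _ (z n) _).trans ?_
      rw [bN_comm q (z n) c]
      calc _ ≤ 2 * ρ ^ n + ρ ^ n := add_le_add (hw n hn) (hcz n)
        _ = 3 * ρ ^ n := by ring
    have hzA : ∀ n, n₀ ≤ n → bN q (fun k => ENNReal.ofReal ‖z (n + 1) k - A (n + 1) 0 k‖)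
        ≤ 4 * ρ ^ n := by
      intro n hn
      refine (bN_tri hq1 _ c _).trans ?_
      rw [bN_comm q (z (n + 1)) c, bN_comm q c (A (n + 1) 0)]
      calc _ ≤ ρ ^ n + 3 * ρ ^ n := by
            refine add_le_add ((hcz (n + 1)).trans ?_) (hAc n hn)
            exact pow_le_pow_right_of_le_one' hρ1.le (Nat.le_succ n)
        _ = 4 * ρ ^ n := by ring
    have hD : ∀ n, n₀ ≤ n → ∀ t, 0 ≤ t →
        bN q (fun k => ENNReal.ofReal ‖A (n + 1 + 1) t k - A (n + 1) t k‖)
          ≤ 6 * ρ ^ n := by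
      intro n hn t ht
      have h3 : ρ ^ (n + 1) ≤ ρ ^ n := pow_le_pow_right_of_le_one' hρ1.le (Nat.le_succ n)
      calc _ ≤ _ := (hst (n + 1)).two q hq t ht
        _ ≤ 4 * ρ ^ n + ρ ^ n + ρ ^ n := by
            refine add_le_add (add_le_add (hzA n hn) ?_) ?_
            · exact (hE (n + 1) (by omega)).trans h3
            · exact (hg (n + 1)).trans h3
        _ = _ := by ring
    have ht1 : Tendsto (fun J : ℕ => ∑' i, 6 * ρ ^ (i + J)) atTop
        (𝓝 0) := ENNReal.tendsto_sum_nat_add _ (rho_sum hρ1 (by simp))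
    have ht2 : Tendsto (fun J : ℕ => 3 * ρ ^ J) atTop (𝓝 0) := by
      have := ENNReal.Tendsto.const_mul (a := 3)
        (ENNReal.tendsto_pow_atTop_nhds_zero_of_lt_one hρ1) (Or.inr (by simp))
      rwa [mul_zero] at this
    have hbes : Tendsto (fun t => bN q (fun k => ENNReal.ofReal ‖b t k - c k‖)) (𝓝[>] 0)
        (𝓝 0) := by
      rw [ENNReal.tendsto_nhds_zero]
      intro η hη
      have hη3 : 0 < η / 3 := ENNReal.div_pos hη.ne' (by simp)
      obtain ⟨J, hJ1, hJ2, hJ0⟩ := (((ENNReal.tendsto_nhds_zero.1 ht1) (η / 3) hη3).and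
        (((ENNReal.tendsto_nhds_zero.1 ht2) (η / 3) hη3).and (eventually_ge_atTop n₀))).exists
      -- continuity at zero of the solution number `J + 1`
      have hcon : ∀ᶠ t in 𝓝[>] (0 : ℝ),
          bN q (fun k => ENNReal.ofReal ‖A (J + 1) t k - A (J + 1) 0 k‖) ≤ η / 3 := by
        have hm : Maj (fun t => A (J + 1) t - A (J + 1) 0) := by
          refine Maj.sub (htg (J + 1)).maj ?_
          intro n T
          obtain ⟨B, hB, h⟩ := (htg (J + 1)).maj n 0
          exact ⟨B, hB, fun t _ k => h 0 ⟨le_rfl, le_rfl⟩ k⟩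
        have hcn' : Cnt (fun t => A (J + 1) t - A (J + 1) 0) :=
          Cnt.sub (hcn (J + 1)) fun k => continuousOn_const
        have h1 := (hm.cont hcn' wt_one) 0 (by simp)
        have h2 : Tendsto (fun t => ENNReal.ofReal (W (fun _ => 1)
            (A (J + 1) t - A (J + 1) 0))) (𝓝[>] 0) (𝓝 0) := by
          have h3 : W (fun _ => 1) (A (J + 1) 0 - A (J + 1) 0) = 0 := by
            rw [W]
            simp
          have h4 : Tendsto (fun t => W (fun _ => 1) (A (J + 1) t - A (J + 1) 0)) (𝓝[>] 0)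
              (𝓝 0) := by
            have h5 := (ContinuousWithinAt.mono h1 (Ioi_subset_Ici_self)).tendsto
            rwa [h3] at h5
          have := (ENNReal.continuous_ofReal.tendsto 0).comp h4
          rwa [ENNReal.ofReal_zero] at this
        filter_upwards [(ENNReal.tendsto_nhds_zero.1 h2) (η / 3) hη3, self_mem_nhdsWithin]
          with t ht ht0
        have ht0' : (0 : ℝ) ≤ t := (show (0 : ℝ) < t from ht0).le
        refine le_trans (bN_le hq ?_ ?_ ?_) ht
        · rw [(htg (J + 1)).zero t ht0', (htg (J + 1)).zero 0 le_rfl]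
        · have := hm.l1 ht0'
          exact this
        · refine le_of_eq ?_
          rw [W]
          exact tsum_congr fun k => by rw [one_mul, Pi.sub_apply]
      filter_upwards [hcon, self_mem_nhdsWithin] with t ht ht0
      have ht0' : 0 < t := ht0
      refine (bN_split hq1 c (hlim t ht0') (J + 1)).trans ?_
      calc _ ≤ η / 3 + (η / 3 + η / 3) := by
            refine add_le_add (le_trans (ENNReal.tsum_le_tsum fun i => ?_) hJ1)
              (add_le_add ht ((hAc J hJ0).trans hJ2))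
            have h6 := hD (i + J) (by omega) t ht0'.le
            have h7 : J + 1 + i = i + J + 1 := by omega
            rw [h7]
            exact h6
        _ = η := by
            rw [← add_assoc]
            exact ENNReal.add_thirds η
    have := (ENNReal.continuous_rpow_const (y := q)).tendsto 0 |>.comp hbes
    rw [ENNReal.zero_rpow_of_pos hq0] at this
    refine this.congr fun t => ?_
    exact (besC_eq hq0 _).symm
  · -- the pointwise decay
    have e0 : ∀ t, Real.sqrt t * ∑' k, ‖b t k‖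
        = (ENNReal.ofReal (Real.sqrt t) * ∑' k, ENNReal.ofReal ‖b t k‖).toReal := by
      intro t
      rw [ENNReal.toReal_mul, ENNReal.toReal_ofReal (Real.sqrt_nonneg _),
        ENNReal.tsum_toReal_eq fun k => ENNReal.ofReal_ne_top]
      congr 1
      exact tsum_congr fun k => (ENNReal.toReal_ofReal (norm_nonneg _)).symm
    simp_rw [e0]
    rw [← ENNReal.toReal_zero]
    refine (ENNReal.tendsto_toReal ENNReal.zero_ne_top).comp ?_
    rw [ENNReal.tendsto_nhds_zero]
    intro η hη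
    have hη2 : 0 < η / 2 := ENNReal.div_pos hη.ne' (by simp)
    have hεs : ∑' n : ℕ, ENNReal.ofReal (ε n) ≠ ⊤ := by
      rw [← ENNReal.ofReal_tsum_of_nonneg (fun n => (hε0 n).le)
        (Summable.of_nonneg_of_le (fun n => (hε0 n).le) hε1
          (summable_geometric_of_lt_one (by norm_num) (by norm_num)))]
      exact ENNReal.ofReal_ne_top
    obtain ⟨J, hJ⟩ := ((ENNReal.tendsto_nhds_zero.1 (ENNReal.tendsto_sum_nat_add _ hεs))
      (η / 2) hη2).exists
    have h1 : Tendsto (fun t : ℝ => ENNReal.ofReal (Real.sqrt t) * ENNReal.ofReal (M J))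
        (𝓝[>] 0) (𝓝 0) := by
      have h2 : Tendsto (fun t : ℝ => ENNReal.ofReal (Real.sqrt t)) (𝓝 0)
          (𝓝 (ENNReal.ofReal (Real.sqrt 0))) :=
        (ENNReal.continuous_ofReal.comp Real.continuous_sqrt).tendsto 0
      rw [Real.sqrt_zero, ENNReal.ofReal_zero] at h2
      have h3 := ENNReal.Tendsto.mul_const (b := ENNReal.ofReal (M J)) h2
        (Or.inr ENNReal.ofReal_ne_top)
      rw [zero_mul] at h3
      exact h3.mono_left nhdsWithin_le_nhds
    filter_upwards [(ENNReal.tendsto_nhds_zero.1 h1) (η / 2) hη2, self_mem_nhdsWithin]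
      with t ht ht0
    have ht0' : 0 < t := ht0
    have hst' : 0 < Real.sqrt t := Real.sqrt_pos.2 ht0'
    calc ENNReal.ofReal (Real.sqrt t) * ∑' k, ENNReal.ofReal ‖b t k‖
        ≤ ENNReal.ofReal (Real.sqrt t)
          * (ENNReal.ofReal (M J) + ∑' i, Sd (A (J + i + 1) t) (A (J + i) t)) :=
          mul_le_mul' le_rfl (hsumb J t ht0')
      _ = ENNReal.ofReal (Real.sqrt t) * ENNReal.ofReal (M J)
          + ∑' i, ENNReal.ofReal (Real.sqrt t) * Sd (A (J + i + 1) t) (A (J + i) t) := by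
          rw [mul_add, ENNReal.tsum_mul_left]
      _ ≤ η / 2 + ∑' i, ENNReal.ofReal (ε (i + J)) := by
          refine add_le_add ht (ENNReal.tsum_le_tsum fun i => ?_)
          calc ENNReal.ofReal (Real.sqrt t) * Sd (A (J + i + 1) t) (A (J + i) t)
              ≤ ENNReal.ofReal (Real.sqrt t) * ENNReal.ofReal (ε (J + i) / Real.sqrt t) :=
                mul_le_mul' le_rfl ((hst (J + i)).pt t ht0')
            _ = ENNReal.ofReal (ε (i + J)) := by
                rw [← ENNReal.ofReal_mul hst'.le, mul_div_cancel₀ _ hst'.ne', add_comm]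
      _ ≤ η / 2 + η / 2 := add_le_add le_rfl hJ
      _ = η := ENNReal.add_halves η
  · -- the norms in `L^q (dt / t)`
    intro q hq
    have hq1 : 1 ≤ q := by linarith
    have hq0 : 0 < q := by linarith
    set ρ : ℝ≥0∞ := ENNReal.ofReal (1 / 2) ^ (1 / q) with hρ
    have hρ1 : ρ < 1 := rho_lt hq0
    obtain ⟨J, hJ⟩ : ∃ n₀ : ℕ, ∀ n, n₀ ≤ n → 1 / ((n : ℝ) + 1) ≤ q - 2 := by
      obtain ⟨n₀, hn₀⟩ := exists_nat_one_div_lt (show 0 < q - 2 by linarith)
      refine ⟨n₀, fun n hn => le_trans ?_ hn₀.le⟩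
      exact one_div_le_one_div_of_le (by positivity) (by
        have : (n₀ : ℝ) ≤ n := by exact_mod_cast hn
        linarith)
    set G : ℝ → ℝ≥0∞ := fun t => ENNReal.ofReal (Real.sqrt t) * ∑' k, ENNReal.ofReal ‖b t k‖
      with hG
    have hGm : AEMeasurable G (volume.restrict (Ioc (0 : ℝ) 1)) :=
      hsm.aemeasurable.mul (AEMeasurable.tsum hbm)
    have hfm : ∀ i, AEMeasurable (fun t => ENNReal.ofReal (Real.sqrt t)
        * Sd (A (J + i + 1) t) (A (J + i) t)) (volume.restrict (Ioc (0 : ℝ) 1)) := fun i =>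
      hsm.aemeasurable.mul (hSm (J + i))
    have hfin : Nq mu1 q G < ⊤ := by
      calc Nq mu1 q G ≤ Nq mu1 q (fun t => ENNReal.ofReal (Real.sqrt t) * ENNReal.ofReal (M J)
            + ∑' i, ENNReal.ofReal (Real.sqrt t) * Sd (A (J + i + 1) t) (A (J + i) t)) := by
            refine Nq_mono hq0.le (mu1_ae fun t ht => ?_)
            rw [ENNReal.tsum_mul_left, ← mul_add]
            exact mul_le_mul' le_rfl (hsumb J t ht.1)
        _ ≤ Nq mu1 q (fun t => ENNReal.ofReal (Real.sqrt t) * ENNReal.ofReal (M J))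
            + ∑' i, Nq mu1 q (fun t => ENNReal.ofReal (Real.sqrt t)
              * Sd (A (J + i + 1) t) (A (J + i) t)) :=
            (Nq_add hq1 (hsm.mul measurable_const).aemeasurable
              (AEMeasurable.tsum fun i => aem_mu1 (hfm i))).trans
              (add_le_add le_rfl (Nq_tsum hq1 fun i => aem_mu1 (hfm i)))
        _ ≤ Nq mu1 q (fun t => ENNReal.ofReal (Real.sqrt t) * ENNReal.ofReal (M J))
            + ∑' i : ℕ, 1 * ρ ^ i := by
            refine add_le_add le_rfl (ENNReal.tsum_le_tsum fun i => ?_)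
            refine (step_mu1 (hSm (J + i)) (hε0 _) hq (hst (J + i)).pt (hst (J + i)).int).trans ?_
            rw [one_mul, hρ]
            refine (ENNReal.rpow_le_rpow (ENNReal.ofReal_le_ofReal
              (pow_Hn hε0 hε1 hHn hM (hJ (J + i) (by omega)))) (by positivity)).trans ?_
            rw [ofReal_half_pow_rpow]
            exact pow_le_pow_right_of_le_one' hρ1.le (by omega)
        _ < ⊤ := ENNReal.add_lt_top.2 ⟨mu1_const hq (hM0 J),
            (rho_sum hρ1 ENNReal.one_ne_top).lt_top⟩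
    rw [Nq] at hfin
    have hfin2 := (ENNReal.rpow_lt_top_iff_of_pos (by positivity)).1 hfin
    rw [lintegral_mu1 (hGm.pow_const q)] at hfin2
    have e0 : ∀ t, Real.sqrt t * ∑' k, ‖b t k‖ = (G t).toReal := by
      intro t
      rw [hG]
      simp only
      rw [ENNReal.toReal_mul, ENNReal.toReal_ofReal (Real.sqrt_nonneg _),
        ENNReal.tsum_toReal_eq fun k => ENNReal.ofReal_ne_top]
      congr 1
      exact tsum_congr fun k => (ENNReal.toReal_ofReal (norm_nonneg _)).symm
    simp_rw [e0]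
    refine ⟨((hGm.ennreal_toReal.pow_const q).div measurable_id.aemeasurable).aestronglyMeasurable,
      ?_⟩
    rw [HasFiniteIntegral]
    refine lt_of_le_of_lt ?_ hfin2
    refine setLIntegral_mono' measurableSet_Ioc fun t ht => ?_
    have ht0 : 0 < t := ht.1
    rw [Real.enorm_eq_ofReal (div_nonneg (Real.rpow_nonneg ENNReal.toReal_nonneg _) ht0.le),
      ENNReal.ofReal_div_of_pos ht0]
    refine ENNReal.div_le_div_right ?_ _
    by_cases htt : G t = ⊤
    · rw [htt, ENNReal.top_rpow_of_pos hq0]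
      exact le_top
    · rw [← ENNReal.ofReal_rpow_of_nonneg ENNReal.toReal_nonneg hq0.le, ENNReal.ofReal_toReal htt]
  · -- the norm in `L²`
    set ρ : ℝ≥0∞ := ENNReal.ofReal (1 / 2) ^ (1 / (2 : ℝ)) with hρ
    have hρ1 : ρ < 1 := rho_lt (by norm_num)
    have hAl0 : ∀ n, L1 (A n 0) := fun n => Maj.l1 (htg n).maj le_rfl
    have hal : ∀ n, al (z (n + 1) - A (n + 1) 0) ≤ (2 * Ca + 1) * (1 / 2) ^ n := by
      intro n
      have e1 : z (n + 1) - A (n + 1) 0 = (z (n + 1) - z n) + -(A (n + 1) 0 - z n) := by abel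
      have l1 : L1 (z (n + 1) - z n) := (hzl _).sub (hzl _)
      have l2 : L1 (-(A (n + 1) 0 - z n)) := by
        have : L1 (A (n + 1) 0 - z n) := (hAl0 _).sub (hzl _)
        refine this.congr fun k => ?_
        rw [Pi.neg_apply, norm_neg]
      rw [e1]
      refine (al1 _ _ (l1_div l1) (l1_div l2)).trans ?_
      rw [al2]
      have h1 := (hst n).al0
      have h2 := al3 _ (l1_div l1)
      have h3 : ∑' k, ‖(z (n + 1) - z n) k‖ ≤ 2 * (1 / 2) ^ n := by
        have hs1 : Summable fun k => ‖c k - z (n + 1) k‖ + ‖c k - z n k‖ := (hzs _).add (hzs _)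
        calc ∑' k, ‖(z (n + 1) - z n) k‖ ≤ ∑' k, (‖c k - z (n + 1) k‖ + ‖c k - z n k‖) := by
              refine Summable.tsum_le_tsum (fun k => ?_) l1 hs1
              have : (z (n + 1) - z n) k = (c k - z n k) - (c k - z (n + 1) k) := by
                rw [Pi.sub_apply]; abel
              rw [this]
              exact (norm_sub_le _ _).trans (le_of_eq (add_comm _ _))
          _ = ∑' k, ‖c k - z (n + 1) k‖ + ∑' k, ‖c k - z n k‖ := (hzs _).tsum_add (hzs _)
          _ ≤ (1 / 2) ^ (n + 1) + (1 / 2) ^ n := add_le_add (hzε _) (hzε _)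
          _ ≤ 2 * (1 / 2) ^ n := by
              rw [pow_succ]
              have : (0 : ℝ) ≤ (1 / 2) ^ n := by positivity
              linarith
      have h4 : Ca * ∑' k, ‖(z (n + 1) - z n) k‖ / len k ≤ Ca * (2 * (1 / 2) ^ n) :=
        mul_le_mul_of_nonneg_left ((l1_div_le l1).trans h3) hCa.le
      linarith
    set K : ℝ := C₀ * (2 * Ca + 2) with hK
    have hK0 : 0 ≤ K := by positivity
    have hstep : ∀ n, ∫⁻ t in Ioc (0 : ℝ) 1, Sq2 (A (n + 2) t) (A (n + 1) t)
        ≤ ENNReal.ofReal K * ENNReal.ofReal ((1 / 2) ^ n) := by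
      intro n
      refine ((hst (n + 1)).l2).trans ?_
      rw [← ENNReal.ofReal_mul hK0]
      refine ENNReal.ofReal_le_ofReal ?_
      have h1 := hal n
      have h2 : (0 : ℝ) ≤ (1 / 2) ^ n := by positivity
      rw [hK, mul_assoc]
      refine mul_le_mul_of_nonneg_left ?_ hC₀.le
      rw [pow_succ]
      linarith
    set g : ℕ → ℝ → ℝ≥0∞ := fun i t =>
      l2n (fun k => ENNReal.ofReal ‖A (i + 2) t k - A (i + 1) t k‖) with hg
    have hgm : ∀ i, AEMeasurable (g i) (volume.restrict (Ioc (0 : ℝ) 1)) := fun i =>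
      (AEMeasurable.tsum fun k => (Sq2_meas (hcn _) (hcn _) k).pow_const 2).pow_const _
    have hgq : ∀ i, Nq (volume.restrict (Ioc (0 : ℝ) 1)) 2 (g i)
        ≤ ENNReal.ofReal K ^ (1 / (2 : ℝ)) * ρ ^ i := by
      intro i
      rw [Nq]
      have e1 : ∀ t, g i t ^ (2 : ℝ) = Sq2 (A (i + 2) t) (A (i + 1) t) := fun t => l2n_sq _
      simp_rw [e1]
      refine (ENNReal.rpow_le_rpow (hstep i) (by norm_num)).trans (le_of_eq ?_)
      rw [ENNReal.mul_rpow_of_nonneg _ _ (by norm_num), ofReal_half_pow_rpow]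
    set N : ℝ → ℝ≥0∞ := fun t => l2n (fun k => ENNReal.ofReal ‖b t k‖) with hN
    have hNle : ∀ t, 0 < t → N t ≤ ENNReal.ofReal (M 1) + ∑' i, g i t := by
      intro t ht
      have h1 : ∑' k, ENNReal.ofReal ‖A 1 t k‖ ≤ ENNReal.ofReal (M 1) := by
        refine ENNReal.summable.tsum_le_of_sum_le fun B => ?_
        rw [← ENNReal.ofReal_sum_of_nonneg fun k _ => norm_nonneg _]
        exact ENNReal.ofReal_le_ofReal (hMn 1 t ht.le B)
      calc N t ≤ l2n (fun k => ENNReal.ofReal ‖A 1 t k‖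
            + ∑' i, ENNReal.ofReal ‖A (i + 2) t k - A (i + 1) t k‖) := by
            refine l2n_mono fun k => ?_
            have h2 := tri (b t k) (A 1 t k) 0
            rw [sub_zero, sub_zero, add_comm] at h2
            refine h2.trans (add_le_add le_rfl ?_)
            refine (tel (hlim t ht) 1 k).trans (le_of_eq ?_)
            refine tsum_congr fun i => ?_
            rw [show 1 + i + 1 = i + 2 by omega, show 1 + i = i + 1 by omega]
        _ ≤ l2n (fun k => ENNReal.ofReal ‖A 1 t k‖)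
            + l2n (fun k => ∑' i, ENNReal.ofReal ‖A (i + 2) t k - A (i + 1) t k‖) :=
            l2n_add _ _
        _ ≤ ENNReal.ofReal (M 1) + ∑' i, g i t :=
            add_le_add ((l2n_le_sum _).trans h1) (l2n_tsum _)
    have hNm : AEMeasurable (fun t => ∑' k, ENNReal.ofReal ‖b t k‖ ^ (2 : ℝ))
        (volume.restrict (Ioc (0 : ℝ) 1)) := AEMeasurable.tsum fun k => (hbm k).pow_const 2
    have hfin : Nq (volume.restrict (Ioc (0 : ℝ) 1)) 2 N < ⊤ := by
      calc Nq (volume.restrict (Ioc (0 : ℝ) 1)) 2 N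
          ≤ Nq (volume.restrict (Ioc (0 : ℝ) 1)) 2
            (fun t => ENNReal.ofReal (M 1) + ∑' i, g i t) := by
            refine Nq_mono (by norm_num) ?_
            filter_upwards [self_mem_ae_restrict measurableSet_Ioc] with t ht
            exact hNle t ht.1
        _ ≤ Nq (volume.restrict (Ioc (0 : ℝ) 1)) 2 (fun _ => ENNReal.ofReal (M 1))
            + ∑' i, Nq (volume.restrict (Ioc (0 : ℝ) 1)) 2 (g i) :=
            (Nq_add (by norm_num) aemeasurable_const (AEMeasurable.tsum hgm)).trans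
              (add_le_add le_rfl (Nq_tsum (by norm_num) hgm))
        _ ≤ Nq (volume.restrict (Ioc (0 : ℝ) 1)) 2 (fun _ => ENNReal.ofReal (M 1))
            + ∑' i : ℕ, ENNReal.ofReal K ^ (1 / (2 : ℝ)) * ρ ^ i :=
            add_le_add le_rfl (ENNReal.tsum_le_tsum hgq)
        _ < ⊤ := by
            refine ENNReal.add_lt_top.2 ⟨?_, (rho_sum hρ1 ?_).lt_top⟩
            · rw [Nq, lintegral_const, Measure.restrict_apply_univ, Real.volume_Ioc]
              refine ENNReal.rpow_lt_top_of_nonneg (by norm_num) (ENNReal.mul_ne_top ?_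
                ENNReal.ofReal_ne_top)
              exact ENNReal.rpow_ne_top_of_nonneg (by norm_num) ENNReal.ofReal_ne_top
            · exact ENNReal.rpow_ne_top_of_nonneg (by norm_num) ENNReal.ofReal_ne_top
    rw [Nq] at hfin
    have hfin2 := (ENNReal.rpow_lt_top_iff_of_pos (by norm_num)).1 hfin
    have e1 : ∀ t, N t ^ (2 : ℝ) = ∑' k, ENNReal.ofReal ‖b t k‖ ^ (2 : ℝ) := fun t => l2n_sq _
    simp_rw [e1] at hfin2
    have e2 : ∀ x : ℝ, 0 ≤ x → ENNReal.ofReal x ^ (2 : ℝ) = ENNReal.ofReal (x ^ 2) := by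
      intro x hx
      rw [ENNReal.ofReal_rpow_of_nonneg hx (by norm_num), Real.rpow_two]
    have e0 : ∀ t, ∑' k, ‖b t k‖ ^ 2 = (∑' k, ENNReal.ofReal ‖b t k‖ ^ (2 : ℝ)).toReal := by
      intro t
      rw [ENNReal.tsum_toReal_eq fun k => ENNReal.rpow_ne_top_of_nonneg (by norm_num)
        ENNReal.ofReal_ne_top]
      refine tsum_congr fun k => ?_
      rw [e2 _ (norm_nonneg _), ENNReal.toReal_ofReal (sq_nonneg _)]
    simp_rw [e0]
    exact integrable_toReal_of_lintegral_ne_top hNm hfin2.ne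
  · -- closeness
    intro t ht B
    have hnn : ∀ n, ∑ k ∈ B, ‖A n t k - U t k‖ ≤ ∑ i ∈ Finset.range n, ε i := by
      intro n
      induction n with
      | zero => simp [hA0]
      | succ n ih =>
        rw [Finset.sum_range_succ]
        have h1 : ε n ≤ t := by
          refine (hε2 n).trans (le_trans ?_ ht)
          exact mul_le_of_le_one_right hδ.le (pow_le_one₀ (by norm_num) (by norm_num))
        calc ∑ k ∈ B, ‖A (n + 1) t k - U t k‖
            ≤ ∑ k ∈ B, (‖A (n + 1) t k - A n t k‖ + ‖A n t k - U t k‖) :=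
              Finset.sum_le_sum fun k _ => norm_sub_le_norm_sub_add_norm_sub _ _ _
          _ = ∑ k ∈ B, ‖A (n + 1) t k - A n t k‖ + ∑ k ∈ B, ‖A n t k - U t k‖ :=
              Finset.sum_add_distrib
          _ ≤ _ := by linarith [(hst n).close t h1 B]
    have hεs : ∀ n, ∑ i ∈ Finset.range n, ε i ≤ δ := by
      intro n
      calc ∑ i ∈ Finset.range n, ε i ≤ ∑ i ∈ Finset.range n, δ * (1 / 2) ^ (i + 1) :=
            Finset.sum_le_sum fun i _ => hε2 i
        _ = δ * (1 - (1 / 2) ^ n) := by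
            rw [← Finset.mul_sum]
            congr 1
            induction n with
            | zero => simp
            | succ n ih =>
              rw [Finset.sum_range_succ, ih]
              ring
        _ ≤ δ := by
            have : (0 : ℝ) ≤ (1 / 2) ^ n := by positivity
            nlinarith
    have hlim' : Tendsto (fun n => ∑ k ∈ B, ‖A (n + 1) t k - U t k‖) atTop
        (𝓝 (∑ k ∈ B, ‖b t k - U t k‖)) :=
      tendsto_finsetSum _ fun k _ =>
        ((hlim t (hδ.trans_le ht) k).sub tendsto_const_nhds).norm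
    exact le_of_tendsto' hlim' fun n => (hnn (n + 1)).trans (hεs (n + 1))

end Pool.Agent.Run7.h308.WS
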