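import Pool.Agent.Run7.h308.WS.StpW

/-!
The sequence of the iteration for weak solutions.
-/

set_option autoImplicit false

open MeasureTheory Set Filter Topology
open scoped ENNReal

namespace Pool.Agent.Run7.h308.WS

open H459R3.NS Pool.Agent.Run7.h782 Pool.Agent.Run7.h782.GD Pool.Agent.Run7.h782.GS
open Pool.Agent.Run7.h782.WS Pool.Agent.Run7.h969.GS Pool.Agent.Run7

/-- The sequence. -/
theorem seqsW (hStep : StmStepW) : ∃ C₀ : ℝ, 0 < C₀ ∧ ∀ (ν : ℝ), 0 < ν → ∀ U : ℝ → Cf,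
    Tg ν U → ∀ c : Cf, c 0 = 0 → Herm c → Dv c → (Summable fun k => ‖c k‖) → ∀ δ : ℝ, 0 < δ →
    ∃ (z : ℕ → Cf) (A : ℕ → ℝ → Cf) (ε H : ℕ → ℝ), A 0 = U ∧
      (∀ n, L1 (z n)) ∧
      (∀ n, Summable fun k => ‖c k - z n k‖) ∧ (∀ n, ∑' k, ‖c k - z n k‖ ≤ (1 / 2) ^ n) ∧
      (∀ n, z n 0 = 0) ∧
      (∀ n, StpW C₀ ((1 / 2) ^ n) (H n) (A n) ν (z n) (ε n) (A (n + 1))) ∧
      (∀ n, 0 < ε n) ∧ (∀ n, ε n ≤ (1 / 2) ^ n) ∧ (∀ n, ε n ≤ δ * (1 / 2) ^ (n + 1)) ∧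
      Antitone ε ∧ (∀ n, 0 ≤ H n) ∧
      (∀ n, (H n + 1) * ε n ^ (1 / ((n : ℝ) + 1)) ≤ (1 / 2) ^ n) := by
  obtain ⟨C₀, hC₀, H⟩ := stpw_of_step hStep
  refine ⟨C₀, hC₀, fun ν hν U hU c hc0 hh hd hs δ hδ => ?_⟩
  have hz : ∀ n : ℕ, ∃ z : Cf, ∃ Z : Finset K3, (0 : K3) ∉ Z ∧ (∀ k ∉ Z, z k = 0) ∧ Herm z ∧
      Dv z ∧ (Summable fun k => ‖c k - z k‖) ∧ ∑' k, ‖c k - z k‖ ≤ (1 / 2) ^ n := by
    intro n
    obtain ⟨Z, z, h⟩ := trunc hc0 hh hd hs (ε := (1 / 2 : ℝ) ^ n) (by positivity)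
    exact ⟨z, Z, h⟩
  choose z Z hZ0 hzZ hzh hzd hzs hzε using hz
  obtain ⟨f, hf0, hP, hR⟩ := exists_rec (X := (ℝ → Cf) × ℝ)
    (fun x => Tg ν x.1 ∧ 0 < x.2)
    (fun n x y => ∃ H' : ℝ, 0 ≤ H' ∧ StpW C₀ ((1 / 2) ^ n) H' x.1 ν (z n) y.2 y.1 ∧
      y.2 ≤ x.2 ∧ y.2 ≤ (1 / 2) ^ n ∧ y.2 ≤ δ * (1 / 2) ^ (n + 1) ∧
      (H' + 1) * y.2 ^ (1 / ((n : ℝ) + 1)) ≤ (1 / 2) ^ n)
    (U, 1) ⟨hU, one_pos⟩ (by
      rintro n ⟨a, e⟩ ⟨ha, he⟩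
      obtain ⟨H', hH0, hH'⟩ := H ν hν a ha (Z n) (z n) (hZ0 n) (hzZ n) (hzh n) (hzd n)
        ((1 / 2) ^ n) (by positivity)
      have e1 : ∀ᶠ ε in 𝓝[>] (0 : ℝ), 0 < ε := self_mem_nhdsWithin
      have e2 : ∀ κ : ℝ, 0 < κ → ∀ᶠ ε in 𝓝[>] (0 : ℝ), ε ≤ κ := fun κ hκ =>
        nhdsWithin_le_nhds (ge_mem_nhds hκ)
      obtain ⟨ε, h1, h2, h3, h4, h5⟩ := (e1.and ((e2 e he).and ((e2 ((1 / 2) ^ n)
        (by positivity)).and ((e2 (δ * (1 / 2) ^ (n + 1)) (by positivity)).and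
          (small_pow (H' + 1) (1 / ((n : ℝ) + 1)) ((1 / 2) ^ n) (by positivity)
            (by positivity)))))).exists
      obtain ⟨b, hb⟩ := hH' ε h1
      exact ⟨(b, ε), ⟨hb.tg, h1⟩, H', hH0, hb, h2, h3, h4, h5⟩)
  choose H' hH0 hst h1 h2 h3 h4 using hR
  refine ⟨z, fun n => (f n).1, fun n => (f (n + 1)).2, H', by simp [hf0],
    fun n => L1.of_supp (hzZ n), hzs, hzε,
    fun n => hzZ n 0 (hZ0 n), hst, fun n => (hP (n + 1)).2, h2, h3, ?_, hH0, h4⟩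
  exact antitone_nat_of_succ_le fun n => h1 (n + 1)

/-- `ε ^ p * H` for exponents `p ≥ 1 / (n + 1)`. -/
theorem pow_Hn {ε H : ℕ → ℝ} (hε0 : ∀ n, 0 < ε n) (hε1 : ∀ n, ε n ≤ (1 / 2) ^ n)
    (hH : ∀ n, 0 ≤ H n)
    (hM : ∀ n, (H n + 1) * ε n ^ (1 / ((n : ℝ) + 1)) ≤ (1 / 2) ^ n) {p : ℝ} {n : ℕ}
    (hp : 1 / ((n : ℝ) + 1) ≤ p) : ε n ^ p * H n ≤ (1 / 2) ^ n := by
  have h1 : ε n ^ p ≤ ε n ^ (1 / ((n : ℝ) + 1)) :=
    Real.rpow_le_rpow_of_exponent_ge (hε0 n)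
      ((hε1 n).trans (pow_le_one₀ (by norm_num) (by norm_num))) hp
  have h2 : 0 ≤ ε n ^ p := Real.rpow_nonneg (hε0 n).le _
  have h3 := hH n
  calc ε n ^ p * H n ≤ ε n ^ (1 / ((n : ℝ) + 1)) * (H n + 1) :=
        mul_le_mul h1 (by linarith) h3 (Real.rpow_nonneg (hε0 n).le _)
    _ = (H n + 1) * ε n ^ (1 / ((n : ℝ) + 1)) := mul_comm _ _
    _ ≤ _ := hM n

/-- The sum norm of the limit by the one of a member of the sequence. -/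
theorem sum_le {A : ℕ → ℝ → Cf} {b : ℝ → Cf} {t : ℝ}
    (hlim : ∀ k, Tendsto (fun j => A (j + 1) t k) atTop (𝓝 (b t k))) {J : ℕ} {M : ℝ}
    (hM : ∀ B : Finset K3, ∑ k ∈ B, ‖A J t k‖ ≤ M) :
    ∑' k, ENNReal.ofReal ‖b t k‖
      ≤ ENNReal.ofReal M + ∑' i, Sd (A (J + i + 1) t) (A (J + i) t) := by
  have h1 : ∑' k, ENNReal.ofReal ‖A J t k‖ ≤ ENNReal.ofReal M := by
    refine ENNReal.summable.tsum_le_of_sum_le fun B => ?_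
    rw [← ENNReal.ofReal_sum_of_nonneg fun k _ => norm_nonneg _]
    exact ENNReal.ofReal_le_ofReal (hM B)
  calc ∑' k, ENNReal.ofReal ‖b t k‖
      ≤ ∑' k, (ENNReal.ofReal ‖A J t k‖
        + ∑' i, ENNReal.ofReal ‖A (J + i + 1) t k - A (J + i) t k‖) := by
        refine ENNReal.tsum_le_tsum fun k => ?_
        have h2 := tri (b t k) (A J t k) 0
        rw [sub_zero, sub_zero, add_comm] at h2
        exact h2.trans (add_le_add le_rfl (tel hlim J k))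
    _ = ∑' k, ENNReal.ofReal ‖A J t k‖ + ∑' i, Sd (A (J + i + 1) t) (A (J + i) t) := by
        rw [ENNReal.tsum_add]
        congr 1
        rw [ENNReal.tsum_comm]
        rfl
    _ ≤ _ := add_le_add h1 le_rfl

/-- The norm in `ℓ²`. -/
noncomputable def l2n (x : K3 → ℝ≥0∞) : ℝ≥0∞ := (∑' k, x k ^ (2 : ℝ)) ^ (1 / (2 : ℝ))

theorem l2n_eq (x : K3 → ℝ≥0∞) : l2n x = Nq Measure.count 2 x := by
  rw [l2n, Nq, lintegral_count]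

theorem l2n_add (x y : K3 → ℝ≥0∞) : l2n (fun k => x k + y k) ≤ l2n x + l2n y := by
  rw [l2n_eq, l2n_eq, l2n_eq]
  exact Nq_add (by norm_num) (measurable_of_countable _).aemeasurable
    (measurable_of_countable _).aemeasurable

theorem l2n_tsum (x : ℕ → K3 → ℝ≥0∞) : l2n (fun k => ∑' n, x n k) ≤ ∑' n, l2n (x n) := by
  simp_rw [l2n_eq]
  exact Nq_tsum (by norm_num) fun n => (measurable_of_countable _).aemeasurable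

theorem l2n_mono {x y : K3 → ℝ≥0∞} (h : ∀ k, x k ≤ y k) : l2n x ≤ l2n y :=
  ENNReal.rpow_le_rpow (ENNReal.tsum_le_tsum fun k => ENNReal.rpow_le_rpow (h k) (by norm_num))
    (by norm_num)

theorem l2n_sq (x : K3 → ℝ≥0∞) : l2n x ^ (2 : ℝ) = ∑' k, x k ^ (2 : ℝ) := by
  rw [l2n, ← ENNReal.rpow_mul]
  norm_num

theorem l2n_le_sum (x : K3 → ℝ≥0∞) : l2n x ≤ ∑' k, x k := by
  have h1 : ∑' k, x k ^ (2 : ℝ) ≤ (∑' k, x k) ^ (2 : ℝ) := by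
    have e : ∀ y : ℝ≥0∞, y ^ (2 : ℝ) = y * y := fun y => by
      rw [show (2 : ℝ) = ((2 : ℕ) : ℝ) by norm_num, ENNReal.rpow_natCast, pow_two]
    simp_rw [e]
    calc ∑' k, x k * x k ≤ ∑' k, (∑' l, x l) * x k :=
          ENNReal.tsum_le_tsum fun k => mul_le_mul' (ENNReal.le_tsum k) le_rfl
      _ = _ := ENNReal.tsum_mul_left
  rw [l2n]
  refine (ENNReal.rpow_le_rpow h1 (by norm_num)).trans (le_of_eq ?_)
  rw [← ENNReal.rpow_mul]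
  norm_num

end Pool.Agent.Run7.h308.WS
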