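import Pool.Agent.Run7.h782.WS.Defs
import Pool.Agent.Run7.h969.GS.Iter

/-!
One step of the iteration for weak solutions: bounds with extended values.
-/

set_option autoImplicit false

open MeasureTheory Set Filter Topology
open scoped ENNReal

namespace Pool.Agent.Run7.h308.WS

open H459R3.NS Pool.Agent.Run7.h782 Pool.Agent.Run7.h782.GD Pool.Agent.Run7.h782.GS
open Pool.Agent.Run7.h782.WS Pool.Agent.Run7.h969.GS Pool.Agent.Run7

theorem ht_one {s : ℝ} (hs : 0 ≤ s) (k : K3) : GS.ht s k ≤ 1 := by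
  rw [GS.ht]
  refine Real.exp_le_one_iff.2 ?_
  have := sq_nonneg' k
  have : 0 ≤ 4 * Real.pi ^ 2 * GD.sq k * s := by positivity
  linarith

/-- From a bound of the heat extensions to the Besov norm. -/
theorem bN_of_le {q : ℝ} (hq : 2 < q) {x y e : K3 → ℝ} {h : ℝ → ℝ} {ε H θ : ℝ} (hε : 0 ≤ ε)
    (hx : ∀ k, 0 ≤ x k) (hy : ∀ k, 0 ≤ y k) (he : ∀ k, 0 ≤ e k) (he0 : e 0 = 0)
    (hys : Summable y) (hes : Summable e) (heθ : ∑' k, e k / len k ≤ θ)
    (hc : Continuous h) (hle : ∀ s, 0 < s → h s ≤ ε / Real.sqrt s)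
    (hH : ∀ T, 0 ≤ T → ∫ s in (0 : ℝ)..T, h s ^ 2 ≤ H)
    (hee : ∀ s, 0 ≤ s → ∀ A : Finset K3,
      ∑ k ∈ A, GS.ht s k * x k ≤ (∑' k, GS.ht s k * y k) + h s + ∑' k, GS.ht s k * e k) :
    bN q (fun k => ENNReal.ofReal (x k)) ≤ bN q (fun k => ENNReal.ofReal (y k))
      + ENNReal.ofReal (ε ^ (q - 2) * H) ^ (1 / q) + ENNReal.ofReal θ := by
  set g : ℝ → ℝ := fun s => max (h s) 0 with hg
  have hgc : Continuous g := hc.max continuous_const
  have hg0 : ∀ s, 0 ≤ g s := fun s => le_max_right _ _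
  have hgle : ∀ s, 0 < s → g s ≤ ε / Real.sqrt s := fun s hs =>
    max_le (hle s hs) (div_nonneg hε (Real.sqrt_nonneg _))
  have hgH : ∀ T, 0 ≤ T → ∫ s in (0 : ℝ)..T, g s ^ 2 ≤ H := fun T hT =>
    (intervalIntegral.integral_mono_on hT ((hgc.pow 2).intervalIntegrable _ _)
      ((hc.pow 2).intervalIntegrable _ _) fun s _ => by
        rcases le_total (h s) 0 with h1 | h1
        · show max (h s) 0 ^ 2 ≤ h s ^ 2
          rw [max_eq_right h1]
          nlinarith [sq_nonneg (h s)]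
        · show max (h s) 0 ^ 2 ≤ h s ^ 2
          rw [max_eq_left h1]).trans (hH T hT)
  have hb := h_bound hq hε hgc (fun s _ => hg0 s) hgle hgH
  have hm1 : Measurable fun s : ℝ => ENNReal.ofReal (Real.sqrt s) * ENNReal.ofReal (g s) :=
    (ENNReal.measurable_ofReal.comp Real.continuous_sqrt.measurable).mul
      (ENNReal.measurable_ofReal.comp hgc.measurable)
  have key : ∀ s, 0 < s → Fb (fun k => ENNReal.ofReal (x k)) s
      ≤ Fb (fun k => ENNReal.ofReal (y k)) s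
        + ENNReal.ofReal (Real.sqrt s) * ENNReal.ofReal (g s)
        + Fb (fun k => ENNReal.ofReal (e k)) s := by
    intro s hs
    have hs1 : Summable fun k => GS.ht s k * y k :=
      Summable.of_nonneg_of_le (fun k => mul_nonneg (h744.GS.ht_pos s k).le (hy k))
        (fun k => mul_le_of_le_one_left (hy k) (ht_one hs.le k)) hys
    have hs2 : Summable fun k => GS.ht s k * e k :=
      Summable.of_nonneg_of_le (fun k => mul_nonneg (h744.GS.ht_pos s k).le (he k))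
        (fun k => mul_le_of_le_one_left (he k) (ht_one hs.le k)) hes
    have h1 : ∑' k, ENNReal.ofReal (GS.ht s k) * ENNReal.ofReal (x k)
        ≤ (∑' k, ENNReal.ofReal (GS.ht s k) * ENNReal.ofReal (y k))
          + ENNReal.ofReal (g s) + ∑' k, ENNReal.ofReal (GS.ht s k) * ENNReal.ofReal (e k) := by
      have e1 : ∀ c : K3 → ℝ, ∀ k, ENNReal.ofReal (GS.ht s k) * ENNReal.ofReal (c k)
          = ENNReal.ofReal (GS.ht s k * c k) := fun c k =>
        (ENNReal.ofReal_mul (h744.GS.ht_pos s k).le).symm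
      simp_rw [e1]
      rw [← ENNReal.ofReal_tsum_of_nonneg (fun k => mul_nonneg (h744.GS.ht_pos s k).le
        (hy k)) hs1, ← ENNReal.ofReal_tsum_of_nonneg (fun k =>
          mul_nonneg (h744.GS.ht_pos s k).le (he k)) hs2,
        ← ENNReal.ofReal_add (tsum_nonneg fun k =>
          mul_nonneg (h744.GS.ht_pos s k).le (hy k)) (hg0 s),
        ← ENNReal.ofReal_add (add_nonneg (tsum_nonneg fun k =>
          mul_nonneg (h744.GS.ht_pos s k).le (hy k)) (hg0 s))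
          (tsum_nonneg fun k => mul_nonneg (h744.GS.ht_pos s k).le (he k))]
      refine ENNReal.summable.tsum_le_of_sum_le fun A => ?_
      rw [← ENNReal.ofReal_sum_of_nonneg fun k _ =>
        mul_nonneg (h744.GS.ht_pos s k).le (hx k)]
      refine ENNReal.ofReal_le_ofReal ((hee s hs.le A).trans ?_)
      have : h s ≤ g s := le_max_left _ _
      linarith
    rw [Fb, Fb, Fb]
    calc _ ≤ ENNReal.ofReal (Real.sqrt s) * ((∑' k,
          ENNReal.ofReal (GS.ht s k) * ENNReal.ofReal (y k))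
          + ENNReal.ofReal (g s) + ∑' k, ENNReal.ofReal (GS.ht s k) * ENNReal.ofReal (e k)) :=
          mul_le_mul' le_rfl h1
      _ = _ := by ring
  have hq1 : 1 ≤ q := by linarith
  calc bN q (fun k => ENNReal.ofReal (x k))
      ≤ Nq dss q (fun s => Fb (fun k => ENNReal.ofReal (y k)) s
        + ENNReal.ofReal (Real.sqrt s) * ENNReal.ofReal (g s)
        + Fb (fun k => ENNReal.ofReal (e k)) s) :=
        Nq_mono (by linarith) (dss_ae key)
    _ ≤ Nq dss q (fun s => Fb (fun k => ENNReal.ofReal (y k)) s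
        + ENNReal.ofReal (Real.sqrt s) * ENNReal.ofReal (g s))
        + bN q (fun k => ENNReal.ofReal (e k)) :=
        Nq_add hq1 ((Fb_meas _).add hm1).aemeasurable (Fb_meas _).aemeasurable
    _ ≤ (bN q (fun k => ENNReal.ofReal (y k))
        + Nq dss q (fun s => ENNReal.ofReal (Real.sqrt s) * ENNReal.ofReal (g s)))
        + bN q (fun k => ENNReal.ofReal (e k)) :=
        add_le_add (Nq_add hq1 (Fb_meas _).aemeasurable hm1.aemeasurable) le_rfl
    _ ≤ _ := add_le_add (add_le_add le_rfl hb) (bN_le_sum hq he he0 hes heθ)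

/-- The norm in `ℓ²`. -/
noncomputable def Sq2 (a b : Cf) : ℝ≥0∞ := ∑' k, ENNReal.ofReal ‖a k - b k‖ ^ (2 : ℝ)

/-- The conclusion of `StmStepW`, as needed. -/
structure StpW (C₀ θ H : ℝ) (U : ℝ → Cf) (ν : ℝ) (z : Cf) (ε : ℝ) (a : ℝ → Cf) : Prop where
  csol : CSol ν a
  tg : Tg ν a
  al0 : al (a 0 - z) ≤ θ
  one : ∀ q : ℝ, 2 < q → bN q (fun k => ENNReal.ofReal ‖a 0 k - z k‖)
    ≤ ENNReal.ofReal (ε ^ (q - 2) * H) ^ (1 / q) + ENNReal.ofReal θ
  two : ∀ q : ℝ, 2 < q → ∀ t, 0 ≤ t → bN q (fun k => ENNReal.ofReal ‖a t k - U t k‖)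
    ≤ bN q (fun k => ENNReal.ofReal ‖z k - U 0 k‖)
      + ENNReal.ofReal (ε ^ (q - 2) * H) ^ (1 / q) + ENNReal.ofReal θ
  pt : ∀ t, 0 < t → Sd (a t) (U t) ≤ ENNReal.ofReal (ε / Real.sqrt t)
  int : ∫⁻ t in Ioc (0 : ℝ) 1, Sd (a t) (U t) ^ (2 : ℝ) ≤ ENNReal.ofReal H
  l2 : ∫⁻ t in Ioc (0 : ℝ) 1, Sq2 (a t) (U t) ≤ ENNReal.ofReal (C₀ * (al (z - U 0) + θ))
  close : ∀ t, ε ≤ t → ∀ A : Finset K3, ∑ k ∈ A, ‖a t k - U t k‖ ≤ ε

theorem int_sq2 {a U : ℝ → Cf} (ha : Cnt a) (hU : Cnt U) {K : ℝ}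
    (h : ∀ T, 0 ≤ T → ∀ A : Finset K3, ∫ t in (0 : ℝ)..T, ∑ k ∈ A, ‖a t k - U t k‖ ^ 2 ≤ K) :
    ∫⁻ t in Ioc (0 : ℝ) 1, Sq2 (a t) (U t) ≤ ENNReal.ofReal K := by
  have e0 : ∀ x : ℝ, 0 ≤ x → ENNReal.ofReal x ^ (2 : ℝ) = ENNReal.ofReal (x ^ 2) := by
    intro x hx
    rw [ENNReal.ofReal_rpow_of_nonneg hx (by norm_num), Real.rpow_two]
  have e1 : ∀ t, Sq2 (a t) (U t)
      = ⨆ A : Finset K3, ENNReal.ofReal (∑ k ∈ A, ‖a t k - U t k‖ ^ 2) := by
    intro t
    rw [Sq2, ENNReal.tsum_eq_iSup_sum]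
    refine iSup_congr fun A => ?_
    rw [ENNReal.ofReal_sum_of_nonneg fun k _ => by positivity]
    exact Finset.sum_congr rfl fun k _ => e0 _ (norm_nonneg _)
  simp_rw [e1]
  have hc : ∀ A : Finset K3, ContinuousOn (fun t => ∑ k ∈ A, ‖a t k - U t k‖ ^ 2)
      (Icc (0 : ℝ) 1) := fun A =>
    continuousOn_finsetSum A fun k _ => (((ha k).sub (hU k)).norm.mono Icc_subset_Ici_self).pow 2
  have hi : ∀ A : Finset K3, IntegrableOn (fun t => ∑ k ∈ A, ‖a t k - U t k‖ ^ 2)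
      (Ioc (0 : ℝ) 1) := fun A =>
    ((hc A).integrableOn_compact isCompact_Icc).mono_set Ioc_subset_Icc_self
  rw [lintegral_iSup_directed]
  · refine iSup_le fun A => ?_
    rw [← ofReal_integral_eq_lintegral_ofReal (hi A)
      (Eventually.of_forall fun t => Finset.sum_nonneg fun k _ => sq_nonneg _)]
    refine ENNReal.ofReal_le_ofReal ?_
    have := h 1 zero_le_one A
    rwa [intervalIntegral.integral_of_le zero_le_one] at this
  · intro A
    exact (hi A).aestronglyMeasurable.aemeasurable.ennreal_ofReal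
  · intro A B
    refine ⟨A ∪ B, fun t => ENNReal.ofReal_le_ofReal ?_, fun t => ENNReal.ofReal_le_ofReal ?_⟩
    · exact Finset.sum_le_sum_of_subset_of_nonneg Finset.subset_union_left
          fun k _ _ => sq_nonneg _
    · exact Finset.sum_le_sum_of_subset_of_nonneg Finset.subset_union_right
          fun k _ _ => sq_nonneg _

/-- From `StmStepW` to `StpW`. -/
theorem stpw_of_step (hStep : StmStepW) : ∃ C₀ : ℝ, 0 < C₀ ∧ ∀ (ν : ℝ), 0 < ν → ∀ U : ℝ → Cf,
    Tg ν U → ∀ (Z : Finset K3) (z : Cf), (0 : K3) ∉ Z → (∀ k ∉ Z, z k = 0) → Herm z → Dv z →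
    ∀ θ : ℝ, 0 < θ → ∃ H : ℝ, 0 ≤ H ∧ ∀ ε : ℝ, 0 < ε → ∃ a : ℝ → Cf, StpW C₀ θ H U ν z ε a := by
  obtain ⟨C₀, hC₀, H⟩ := hStep
  refine ⟨C₀, hC₀, fun ν hν U hU Z z hZ0 hz hh hd θ hθ => ?_⟩
  obtain ⟨H', hH'⟩ := H ν hν U hU Z z hZ0 hz hh hd θ hθ
  refine ⟨H', ?_, fun ε hε => ?_⟩
  · obtain ⟨h, a, -, -, -, -, -, h6, -⟩ := hH' 1 one_pos
    simpa using h6 0 le_rfl
  obtain ⟨h, a, hcs, htg, hal, hcont, hle, hH, ⟨e, he0, hez, hes, heθ, hee⟩, hE, hpt, hI, hI2,
    hcl⟩ := hH' ε hε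
  refine ⟨a, hcs, htg, hal, fun q hq => ?_, fun q hq t ht => ?_, fun t ht => ?_, ?_, ?_, hcl⟩
  · have h1 := bN_of_le hq (x := fun k => ‖a 0 k - z k‖) (y := fun _ => 0) hε.le
      (fun k => norm_nonneg _) (fun _ => le_rfl) he0 hez summable_zero hes heθ hcont hle hH
      (fun s hs A => by
        have h0 : ∑' k, GS.ht s k * (0 : ℝ) = 0 := by simp
        show _ ≤ (∑' k, GS.ht s k * (0 : ℝ)) + h s + _
        rw [h0, zero_add]
        exact hee s hs A)
    have h2 : bN q (fun _ : K3 => ENNReal.ofReal 0) = 0 := by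
      have : Fb (fun _ : K3 => ENNReal.ofReal 0) = fun _ => 0 := funext fun s => by simp [Fb]
      rw [bN, this]
      exact Nq_zero (by linarith)
    rw [h2, zero_add] at h1
    exact h1
  · obtain ⟨e, he0, hez, hes, heθ, hee⟩ := hE t ht
    have hsU : Summable fun k => ‖z k - U 0 k‖ := by
      have h1 : L1 (U 0) := Maj.l1 hU.maj le_rfl
      exact (L1.of_supp hz).sub h1
    exact bN_of_le hq (x := fun k => ‖a t k - U t k‖) (y := fun k => ‖z k - U 0 k‖) hε.le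
      (fun k => norm_nonneg _) (fun k => norm_nonneg _) he0 hez hsU hes heθ hcont hle hH hee
  · exact Sd_le (hpt t ht)
  · exact int_two (h969.GS.LSol.cnt htg.toLSol) (h969.GS.LSol.cnt hU.toLSol) hI
  · exact int_sq2 (h969.GS.LSol.cnt htg.toLSol) (h969.GS.LSol.cnt hU.toLSol) hI2

end Pool.Agent.Run7.h308.WS
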